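import Pool.Agent.Helper57.NS.Defs
import Pool.Agent.Helper56.UG.Cv

/-!
# OR, block NZ: from the windows with integer ends to all windows near 0
-/

set_option autoImplicit false
open MeasureTheory Set Filter Topology
open Pool.Agent.Helper93.UG (zc sp)
open Pool.Agent.Helper57.NS (cnt)
open Pool.Agent.Helper56.UG (zc_mono)

namespace Pool.Agent.Helper53.OR

private lemma cnt_mono {T : ℝ} (hs : 0 < sp T) (t : ℝ) {U V : Set ℝ} {a b : ℝ} (hUV : U ⊆ V) (hV : V ⊆ Icc a b) :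
    cnt T t U ≤ cnt T t V := by
  unfold cnt
  have h1 : {u : ℝ | (u - t) / sp T ∈ V} ⊆ Icc (t + a * sp T) (t + b * sp T) := by
    intro u hu
    have h := hV hu
    rw [Set.mem_Icc, le_div_iff₀ hs, div_le_iff₀ hs] at h
    constructor <;> linarith [h.1, h.2]
  have h2 : zc {u : ℝ | (u - t) / sp T ∈ U} ≤ zc {u : ℝ | (u - t) / sp T ∈ V} := zc_mono (fun u hu => hUV hu) h1
  exact_mod_cast h2

/-- the union over the integers and the monotonicity in between -/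
theorem nz_of {δ e e₁ c₁ C₁ T₁ : ℝ} (he : 0 < e) (he₁ : 0 < e₁) (hc : e₁ < c₁)
    (hw : ∀ T L : ℝ, T₁ ≤ T → C₁ ≤ L → L ≤ Real.log T ^ (1 - δ) → ∀ k : ℕ, 1 ≤ k → (k : ℝ) ≤ L ^ e₁ + 1 →
      volume {t : ℝ | t ∈ Icc T (2 * T) ∧ e / 2 * Real.log L < |cnt T t (Icc 0 k) - k|} ≤ ENNReal.ofReal (C₁ * L ^ (-c₁) * T) ∧
      volume {t : ℝ | t ∈ Icc T (2 * T) ∧ e / 2 * Real.log L < |cnt T t (Icc (-(k : ℝ)) 0) - k|} ≤
        ENNReal.ofReal (C₁ * L ^ (-c₁) * T)) :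
    ∃ c C T₀ : ℝ, 0 < c ∧ 1 ≤ C ∧
    ∀ T L : ℝ, T₀ ≤ T → C ≤ L → L ≤ Real.log T ^ (1 - δ) →
    ∃ E : Set ℝ, volume E ≤ ENNReal.ofReal (C * L ^ (-c) * T) ∧ ∀ t ∈ Icc T (2 * T), t ∉ E → ∀ y ∈ Icc 0 (L ^ e₁),
      |cnt T t (Icc 0 y) - y| ≤ e * Real.log L ∧ |cnt T t (Icc (-y) 0) - y| ≤ e * Real.log L := by
  refine ⟨c₁ - e₁, max (max C₁ (4 * |C₁|)) (Real.exp (2 / e)), max T₁ 3, by linarith,
    (Real.one_le_exp (by positivity)).trans (le_max_right _ _), fun T L hT hL hLT => ?_⟩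
  have hT1 : T₁ ≤ T := (le_max_left _ _).trans hT
  have hT3 : 3 ≤ T := (le_max_right _ _).trans hT
  have hL1 : C₁ ≤ L := ((le_max_left _ _).trans (le_max_left _ _)).trans hL
  have hLe : Real.exp (2 / e) ≤ L := (le_max_right _ _).trans hL
  have hL1' : 1 ≤ L := (Real.one_le_exp (by positivity)).trans hLe
  have hL0 : 0 < L := by linarith
  have hlog : 2 / e ≤ Real.log L := by
    rw [← Real.log_exp (2 / e)]
    exact Real.log_le_log (Real.exp_pos _) hLe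
  have hlog2 : 1 ≤ e / 2 * Real.log L := by
    have h1 : e / 2 * (2 / e) = 1 := by field_simp
    rw [← h1]
    exact mul_le_mul_of_nonneg_left hlog (by positivity)
  have hs : 0 < sp T := by
    unfold sp
    have : 0 < Real.log T := Real.log_pos (by linarith)
    positivity
  have hw' := hw T L hT1 hL1 hLT
  have hp1 : 1 ≤ L ^ e₁ := Real.one_le_rpow hL1' he₁.le
  obtain ⟨K, hK⟩ : ∃ K : ℕ, K = ⌊L ^ e₁⌋₊ + 1 := ⟨_, rfl⟩
  have hKle : (K : ℝ) ≤ L ^ e₁ + 1 := by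
    rw [hK]
    push_cast
    linarith [Nat.floor_le (by positivity : 0 ≤ L ^ e₁)]
  obtain ⟨E, hE⟩ : ∃ E : Set ℝ, E = ⋃ k ∈ Finset.Icc 1 K,
      ({t : ℝ | t ∈ Icc T (2 * T) ∧ e / 2 * Real.log L < |cnt T t (Icc 0 (k : ℝ)) - (k : ℝ)|} ∪
        {t : ℝ | t ∈ Icc T (2 * T) ∧ e / 2 * Real.log L < |cnt T t (Icc (-(k : ℝ)) 0) - (k : ℝ)|}) := ⟨_, rfl⟩
  refine ⟨E, ?_, ?_⟩
  · -- the measure
    have hb : ∀ k ∈ Finset.Icc 1 K,
        volume ({t : ℝ | t ∈ Icc T (2 * T) ∧ e / 2 * Real.log L < |cnt T t (Icc 0 (k : ℝ)) - (k : ℝ)|} ∪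
        {t : ℝ | t ∈ Icc T (2 * T) ∧ e / 2 * Real.log L < |cnt T t (Icc (-(k : ℝ)) 0) - (k : ℝ)|}) ≤
          ENNReal.ofReal (2 * (|C₁| * L ^ (-c₁) * T)) := by
      intro k hk
      rw [Finset.mem_Icc] at hk
      have hk2 : (k : ℝ) ≤ L ^ e₁ + 1 := le_trans (by exact_mod_cast hk.2) hKle
      obtain ⟨h1, h2⟩ := hw' k hk.1 hk2
      have h3 : C₁ * L ^ (-c₁) * T ≤ |C₁| * L ^ (-c₁) * T := by
        have := le_abs_self C₁
        gcongr
      have h4 : (0:ℝ) ≤ |C₁| * L ^ (-c₁) * T := by positivity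
      refine (measure_union_le _ _).trans ?_
      rw [two_mul (|C₁| * L ^ (-c₁) * T), ENNReal.ofReal_add h4 h4]
      exact add_le_add (h1.trans (ENNReal.ofReal_le_ofReal h3)) (h2.trans (ENNReal.ofReal_le_ofReal h3))
    rw [hE]
    refine (measure_biUnion_finset_le _ _).trans ((Finset.sum_le_sum hb).trans ?_)
    rw [Finset.sum_const, nsmul_eq_mul, Nat.card_Icc, Nat.add_sub_cancel, ← ENNReal.ofReal_natCast,
      ← ENNReal.ofReal_mul (Nat.cast_nonneg _)]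
    refine ENNReal.ofReal_le_ofReal ?_
    have h5 : L ^ e₁ * L ^ (-c₁) = L ^ (-(c₁ - e₁)) := by
      rw [← Real.rpow_add hL0]
      congr 1
      ring
    calc (K : ℝ) * (2 * (|C₁| * L ^ (-c₁) * T)) ≤ (2 * L ^ e₁) * (2 * (|C₁| * L ^ (-c₁) * T)) := by
          gcongr
          linarith
      _ = 4 * |C₁| * (L ^ e₁ * L ^ (-c₁)) * T := by ring
      _ = 4 * |C₁| * L ^ (-(c₁ - e₁)) * T := by rw [h5]
      _ ≤ _ := by
        gcongr
        exact (le_max_right _ _).trans (le_max_left _ _)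
  · intro t ht htE y hy
    rw [hE] at htE
    simp only [Set.mem_iUnion, not_exists, Set.mem_union, not_or] at htE
    -- the bounds at the integers
    have hg : ∀ k : ℕ, 1 ≤ k → k ≤ K → |cnt T t (Icc 0 (k : ℝ)) - (k : ℝ)| ≤ e / 2 * Real.log L ∧
        |cnt T t (Icc (-(k : ℝ)) 0) - (k : ℝ)| ≤ e / 2 * Real.log L := by
      intro k h1 h2
      obtain ⟨h3, h4⟩ := htE k (Finset.mem_Icc.2 ⟨h1, h2⟩)
      constructor
      · by_contra h
        rw [not_le] at h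
        exact h3 ⟨ht, h⟩
      · by_contra h
        rw [not_le] at h
        exact h4 ⟨ht, h⟩
    have hy0 : 0 ≤ y := hy.1
    obtain ⟨m, hm⟩ : ∃ m : ℕ, m = ⌊y⌋₊ := ⟨_, rfl⟩
    have hm1 : (m : ℝ) ≤ y := by rw [hm]; exact Nat.floor_le hy0
    have hm2 : y < (m : ℝ) + 1 := by rw [hm]; exact Nat.lt_floor_add_one _
    have hmK : m + 1 ≤ K := by
      rw [hK, hm]
      exact Nat.succ_le_succ (Nat.floor_le_floor hy.2)
    have hup := hg (m + 1) (by omega) hmK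
    push_cast at hup
    have hlo : ((m : ℝ) - e / 2 * Real.log L ≤ cnt T t (Icc 0 y)) ∧ ((m : ℝ) - e / 2 * Real.log L ≤ cnt T t (Icc (-y) 0)) := by
      rcases Nat.eq_zero_or_pos m with h0 | h0
      · have hc0 : ∀ W : Set ℝ, 0 ≤ cnt T t W := fun W => by unfold cnt; positivity
        rw [h0]
        constructor
        · have := hc0 (Icc 0 y)
          push_cast
          linarith
        · have := hc0 (Icc (-y) 0)
          push_cast
          linarith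
      · have h1 := hg m h0 (by omega)
        have h2 : cnt T t (Icc 0 (m : ℝ)) ≤ cnt T t (Icc 0 y) :=
          cnt_mono hs t (a := 0) (b := y) (Icc_subset_Icc_right hm1) subset_rfl
        have h3 : cnt T t (Icc (-(m : ℝ)) 0) ≤ cnt T t (Icc (-y) 0) :=
          cnt_mono hs t (a := -y) (b := 0) (Icc_subset_Icc_left (by linarith)) subset_rfl
        constructor
        · linarith [(abs_le.1 h1.1).1]
        · linarith [(abs_le.1 h1.2).1]
    have h4 : cnt T t (Icc 0 y) ≤ cnt T t (Icc 0 ((m : ℝ) + 1)) :=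
      cnt_mono hs t (a := 0) (b := (m : ℝ) + 1) (Icc_subset_Icc_right hm2.le) subset_rfl
    have h5 : cnt T t (Icc (-y) 0) ≤ cnt T t (Icc (-((m : ℝ) + 1)) 0) :=
      cnt_mono hs t (a := -((m : ℝ) + 1)) (b := 0) (Icc_subset_Icc_left (by linarith)) subset_rfl
    constructor
    · rw [abs_le]
      constructor
      · linarith [hlo.1]
      · linarith [(abs_le.1 hup.1).2]
    · rw [abs_le]
      constructor
      · linarith [hlo.2]
      · linarith [(abs_le.1 hup.2).2]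

end Pool.Agent.Helper53.OR
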